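import Pool.Agent.H14.BlockDefs

set_option autoImplicit false
set_option synthInstance.maxSize 4096

namespace Pool.Agent.Results.MP_025d69_co.Counter

open Pool.Agent.H14.Block Matrix

theorem sep {V : Type} (G : SimpleGraph V) (c : V) (A : V → Prop)
    (hA : ∀ a b, A a → G.Adj a b → b ≠ c → A b) (T : Set V) (hc : c ∉ T)
    (h : (G.induce T).Preconnected) (x y : V) (hx : x ∈ T) (hy : y ∈ T) (h1 : A x) : A y := by
  obtain ⟨w⟩ := h ⟨x, hx⟩ ⟨y, hy⟩
  have : ∀ (a b : T) (w : (G.induce T).Walk a b), A a.1 → A b.1 := by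
    intro a b w
    induction w with
    | nil => exact id
    | cons h w ih =>
      rename_i u v _
      exact fun h2 => ih (hA _ _ h2 h (fun e => hc (e ▸ v.2)))
  exact this _ _ w h1

theorem block_of {n : ℕ} (G : SimpleGraph (Fin n)) (hc : G.Connected)
    (h : ∀ x y, x ≠ y → ¬ G.Adj x y → ∃ c, c ≠ x ∧ c ≠ y ∧ ∃ A : Finset (Fin n), x ∈ A ∧ y ∉ A ∧
      ∀ a b, a ∈ A → G.Adj a b → b ≠ c → b ∈ A) : IsBlockGraph G := by
  refine ⟨hc, fun S hS x hx y hy hxy => ?_⟩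
  by_contra hn
  obtain ⟨c, h1, h2, A, h3, h4, h5⟩ := h x y hxy hn
  by_cases hcS : c ∈ S
  · exact h4 (sep G c (· ∈ A) h5 _ (by simp) (hS.1.2 c hcS) x y ⟨hx, h1.symm⟩ ⟨hy, h2.symm⟩ h3)
  · exact h4 (sep G c (· ∈ A) h5 _ hcS hS.1.1.1 x y hx hy h3)

def e1 : List (Fin 4 × Fin 4) := [(0, 1), (1, 2), (1, 3), (2, 3)]
def e2 : List (Fin 7 × Fin 7) := [(0, 1), (0, 2), (1, 2), (1, 3), (1, 4), (3, 4), (2, 5), (2, 6), (5, 6)]

def G1 : SimpleGraph (Fin 4) where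
  Adj a b := (a, b) ∈ e1 ∨ (b, a) ∈ e1
  symm := ⟨fun _ _ h => h.symm⟩
  loopless := ⟨by decide⟩

def G2 : SimpleGraph (Fin 7) where
  Adj a b := (a, b) ∈ e2 ∨ (b, a) ∈ e2
  symm := ⟨fun _ _ h => h.symm⟩
  loopless := ⟨by decide⟩

instance : DecidableRel G1.Adj := fun a b => by unfold G1; infer_instance
instance : DecidableRel G2.Adj := fun a b => by unfold G2; infer_instance

theorem conn {n : ℕ} (G : SimpleGraph (Fin n)) (r : Fin n)
    (h : ∀ x, x = r ∨ G.Adj r x ∨ ∃ y, G.Adj r y ∧ G.Adj y x) : G.Connected := by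
  have k : ∀ x, G.Reachable r x := by
    intro x
    rcases h x with rfl | h | ⟨y, h1, h2⟩
    · rfl
    · exact h.reachable
    · exact h1.reachable.trans h2.reachable
  have : Nonempty (Fin n) := ⟨r⟩
  exact ⟨fun x y => (k x).symm.trans (k y)⟩

theorem det_ne {n : ℕ} (G : SimpleGraph (Fin n)) [DecidableRel G.Adj] (B : Matrix (Fin n) (Fin n) ℤ)
    (c : ℤ) (hc : c ≠ 0) (h : G.adjMatrix ℤ * B = diagonal fun _ => c) : (G.adjMatrix ℝ).det ≠ 0 := by
  have e : G.adjMatrix ℝ = (Int.castRingHom ℝ).mapMatrix (G.adjMatrix ℤ) := by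
    ext i j; simp [SimpleGraph.adjMatrix_apply]
  rw [e, ← RingHom.map_det]
  have := congrArg det h
  rw [det_mul, det_diagonal] at this
  intro h0
  have h1 : (G.adjMatrix ℤ).det = 0 := by simpa using h0
  rw [h1, zero_mul] at this
  exact Finset.prod_ne_zero_iff.mpr (fun _ _ => hc) this.symm

def ker : Fin 4 ⊕ Fin 7 → ℤ := Sum.elim ![2, 1, -1, -1] ![-1, -1, -1, 1, 1, 1, 1]

theorem result :
    ¬ ∀ (m n : ℕ) (G : SimpleGraph (Fin m)) (H : SimpleGraph (Fin n)) (v : Fin m) (w : Fin n)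
      [DecidableRel G.Adj] [DecidableRel H.Adj] [DecidableRel (bridge G H v w).Adj],
      IsBlockGraph G → IsBlockGraph H → (G.adjMatrix ℝ).det ≠ 0 → (H.adjMatrix ℝ).det ≠ 0 →
      ((bridge G H v w).adjMatrix ℝ).det ≠ 0 := by
  intro h
  letI : DecidableRel (G1.sum G2).Adj := fun a b => match a, b with
    | Sum.inl x, Sum.inl y => decidable_of_iff (G1.Adj x y) (by simp)
    | Sum.inr x, Sum.inr y => decidable_of_iff (G2.Adj x y) (by simp)
    | Sum.inl _, Sum.inr _ => isFalse (by simp)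
    | Sum.inr _, Sum.inl _ => isFalse (by simp)
  letI : DecidableRel (bridge G1 G2 0 0).Adj := fun a b => decidable_of_iff
    ((G1.sum G2).Adj a b ∨ ((a = Sum.inl 0 ∧ b = Sum.inr 0 ∨ a = Sum.inr 0 ∧ b = Sum.inl 0) ∧ a ≠ b))
    (by rw [bridge, SimpleGraph.sup_adj, SimpleGraph.edge_adj])
  refine h 4 7 G1 G2 0 0 (block_of G1 (conn G1 1 (by decide)) (by decide +kernel))
    (block_of G2 (conn G2 0 (by decide)) (by decide +kernel))
    (det_ne G1 ![![2, 1, -1, -1], ![1, 0, 0, 0], ![-1, 0, 0, 1], ![-1, 0, 1, 0]] 1 (by norm_num) (by decide +kernel))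
    (det_ne G2 ![![3, 3, 3, -3, -3, -3, -3], ![3, -1, 1, 1, 1, -1, -1], ![3, 1, -1, -1, -1, 1, 1], ![-3, 1, -1, -1, 5, 1, 1], ![-3, 1, -1, 5, -1, 1, 1], ![-3, -1, 1, 1, 1, -1, 5], ![-3, -1, 1, 1, 1, 5, -1]] 6 (by norm_num) (by decide +kernel)) ?_
  have k : (bridge G1 G2 0 0).adjMatrix ℤ *ᵥ ker = 0 := by decide +kernel
  have k0 : ((bridge G1 G2 0 0).adjMatrix ℤ).det = 0 :=
    Matrix.exists_mulVec_eq_zero_iff.mp ⟨ker, by decide, k⟩
  have e : (bridge G1 G2 0 0).adjMatrix ℝ =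
      (Int.castRingHom ℝ).mapMatrix ((bridge G1 G2 0 0).adjMatrix ℤ) := by
    ext i j; simp [SimpleGraph.adjMatrix_apply]
  rw [e, ← RingHom.map_det, k0, map_zero]

end Pool.Agent.Results.MP_025d69_co.Counter
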